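import Pool.Agent.V11100.CQ.Asm

/-!
# Brown-Erdős-Sós conjecture: counterexamples have few closed quadrangles

A partial Latin square of order `n` is a tripartite linear triple system with parts (rows, columns,
symbols) of `n` vertices. A closed quadrangle consists of two different rectangles
`{x 0, x 1} × {y 0, y 1}` and `{x' 0, x' 1} × {y' 0, y' 1}` whose cells carry the same symbols in the
same positions. The multiplication table of a group of order `n` has about `n ^ 5` of them.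

We prove that for every `ε > 0` there is `K` such that for every `k ≥ K` and large `n`, if there are
more than `|H| n ^ (2 + ε)` closed quadrangles, then some `k` vertices span at least `k + ⌊k / K⌋`
entries.

Proof. Some pair of a row pair `A` and a symbol pair `B` with two entries `(A 0, y, B 0)`,
`(A 1, y, B 1)` in a common column is completed to a closed quadrangle in more than `n ^ (1 + ε)` ways
by a row pair `a` and a symbol pair `b`; these form a bipartite graph on `n + n` vertices, in which we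
pass to a subgraph of minimum degree `t ≥ n ^ ε / 3`. Along a walk in this graph each new pair brings
four new entries and at most four new vertices, with strict inequality unless all four or none are
new. There are at least `(t - 1) ^ r` non-backtracking walks of length `r`, more than there are
endpoints times the walks inside a bounded set; two walks with the same endpoint give one more edge
than vertices. This is repeated.
-/

set_option autoImplicit false

namespace Pool.Agent.Results.MP_c82047_co.ClosedQuadrangles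

open Finset

/-- `H` is a partial Latin square (rows, columns, symbols): two different entries agree in at most
one coordinate. -/
def IsPartialLatin {n : ℕ} (H : Finset (Fin n × Fin n × Fin n)) : Prop :=
  ∀ g ∈ H, ∀ h ∈ H, (g.1 = h.1 ∧ g.2.1 = h.2.1) ∨ (g.1 = h.1 ∧ g.2.2 = h.2.2) ∨
    (g.2.1 = h.2.1 ∧ g.2.2 = h.2.2) → g = h

/-- The data of a quadrangle: rows `x`, `x'`, columns `y`, `y'` and symbols `z`. -/
abbrev Quad (n : ℕ) :=
  (Fin 2 → Fin n) × (Fin 2 → Fin n) × (Fin 2 → Fin n) × (Fin 2 → Fin n) × (Fin 2 → Fin 2 → Fin n)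

/-- `q = (x, x', y, y', z)` is a closed quadrangle of `H`: two different rows `x 0, x 1`, two
different columns `y 0, y 1`, another pair of rows `x' ≠ x`, and for all `i, j` both `(x i, y j)` and
`(x' i, y' j)` carry the symbol `z i j`. -/
def IsClosedQuadrangle {n : ℕ} (H : Finset (Fin n × Fin n × Fin n)) (q : Quad n) : Prop :=
  q.1 0 ≠ q.1 1 ∧ q.2.2.1 0 ≠ q.2.2.1 1 ∧ q.1 ≠ q.2.1 ∧
    ∀ i j, (q.1 i, q.2.2.1 j, q.2.2.2.2 i j) ∈ H ∧ (q.2.1 i, q.2.2.2.1 j, q.2.2.2.2 i j) ∈ H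

/-- For every `ε > 0` there is `K` such that for all `k ≥ K` and all large `n` every partial Latin
square `H` of order `n` with more than `|H| n ^ (2 + ε)` closed quadrangles has a set of `k` rows,
columns and symbols which spans at least `k + ⌊k / K⌋` entries of `H`. -/
theorem result (ε : ℝ) (hε : 0 < ε) :
    ∃ K : ℕ, 0 < K ∧ ∀ k : ℕ, K ≤ k → ∃ n₀ : ℕ, ∀ n : ℕ, n₀ ≤ n →
      ∀ H : Finset (Fin n × Fin n × Fin n), IsPartialLatin H →
        (H.card : ℝ) * (n : ℝ) ^ (2 + ε) < Set.ncard {q : Quad n | IsClosedQuadrangle H q} →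
        ∃ R C S : Finset (Fin n), R.card + C.card + S.card = k ∧
          k + k / K ≤ (H.filter (fun h => h.1 ∈ R ∧ h.2.1 ∈ C ∧ h.2.2 ∈ S)).card := by
  classical
  set r : ℕ := ⌈5 / ε⌉₊ with hr
  have hr1 : 1 ≤ r := Nat.one_le_iff_ne_zero.2 (Nat.pos_iff_ne_zero.1 (Nat.ceil_pos.2 (by positivity)))
  have hεr : 5 ≤ ε * r := by
    have : 5 / ε ≤ r := Nat.le_ceil _
    rw [div_le_iff₀ hε] at this
    linarith
  refine ⟨528 * r, by omega, fun k hk => ?_⟩
  set m : ℕ := (k - 24) / (24 * r) with hm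
  set M : ℕ := 8 + 8 * r * (m + 1) + 4 * k with hM
  set D : ℕ := (3 * M) ^ 2 with hD
  -- the size of `n`
  obtain ⟨n₀, hn₀⟩ : ∃ n₀ : ℕ, ∀ n : ℕ, n₀ ≤ n → 1 ≤ n ∧ k ≤ n ∧
      ((4 * (D + 3) + 8 : ℕ) : ℝ) ≤ (n : ℝ) ^ ε ∧ 2 * (4 * D) ^ r < n := by
    obtain ⟨N, hN⟩ := Filter.eventually_atTop.1
      ((tendsto_rpow_atTop hε).comp tendsto_natCast_atTop_atTop |>.eventually
        (Filter.eventually_ge_atTop ((4 * (D + 3) + 8 : ℕ) : ℝ)))
    refine ⟨N + 1 + k + (2 * (4 * D) ^ r + 1), fun n hn => ⟨by omega, by omega, ?_, by omega⟩⟩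
    exact hN n (by omega)
  refine ⟨n₀, fun n hn H hL hq => ?_⟩
  obtain ⟨hn1, hkn, hnε, hnr⟩ := hn₀ n hn
  haveI : NeZero n := ⟨by omega⟩
  have hn0 : (0 : ℝ) < n := by exact_mod_cast hn1
  set t : ℕ := ⌊(n : ℝ) ^ ε / 2⌋₊ with ht
  have ht1 : (t : ℝ) ≤ (n : ℝ) ^ ε / 2 := Nat.floor_le (by positivity)
  have ht2 : (n : ℝ) ^ ε / 2 - 1 < t := Nat.sub_one_lt_floor _
  push_cast at hnε
  have htD : D < t := by
    have : (D : ℝ) < t := by linarith
    exact_mod_cast this
  have ht4 : (n : ℝ) ^ ε / 4 ≤ (t : ℝ) - 1 := by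
    have : (0 : ℝ) ≤ D := by positivity
    linarith
  have hcount : 2 * n ^ 2 * ((3 * M) ^ 2) ^ r < (t - 1) ^ r := by
    rw [← hD]
    have h1 : (2 * n ^ 2 * D ^ r : ℝ) < ((t : ℝ) - 1) ^ r := by
      have a1 : ((n : ℝ) ^ ε / 4) ^ r ≤ ((t : ℝ) - 1) ^ r :=
        pow_le_pow_left₀ (by positivity) ht4 r
      have a2 : ((n : ℝ) ^ ε / 4) ^ r = (n : ℝ) ^ (ε * r) / 4 ^ r := by
        rw [div_pow, ← Real.rpow_natCast ((n : ℝ) ^ ε), ← Real.rpow_mul hn0.le]
      have a3 : (n : ℝ) ^ (5 : ℕ) ≤ (n : ℝ) ^ (ε * r) := by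
        rw [← Real.rpow_natCast]
        apply Real.rpow_le_rpow_of_exponent_le (by exact_mod_cast hn1)
        exact_mod_cast hεr
      have a4 : (2 * (4 * D) ^ r : ℝ) < n := by exact_mod_cast hnr
      have a5 : (1 : ℝ) ≤ n := by exact_mod_cast hn1
      rw [a2] at a1
      have a6 : (n : ℝ) ^ (5 : ℕ) / 4 ^ r ≤ ((t : ℝ) - 1) ^ r :=
        (div_le_div_of_nonneg_right a3 (by positivity)).trans a1
      refine lt_of_lt_of_le ?_ a6
      rw [lt_div_iff₀ (by positivity)]
      have a7 : (2 * n ^ 2 * D ^ r * 4 ^ r : ℝ) = n ^ 2 * (2 * (4 * D) ^ r) := by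
        rw [mul_pow]; ring
      rw [a7]
      calc (n : ℝ) ^ 2 * (2 * (4 * (D : ℝ)) ^ r) < (n : ℝ) ^ 2 * (n : ℝ) := by
            apply mul_lt_mul_of_pos_left a4 (by positivity)
        _ = (n : ℝ) ^ 3 := by ring
        _ ≤ (n : ℝ) ^ 5 := pow_le_pow_right₀ a5 (by norm_num)
    have ht1' : 1 ≤ t := by omega
    have h2 : ((t : ℝ) - 1) ^ r = (((t - 1) ^ r : ℕ) : ℝ) := by
      push_cast [Nat.cast_sub ht1']; ring
    rw [h2] at h1
    exact_mod_cast h1
  -- pigeonhole over the dominoes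
  set Q : Finset (Quad n) := univ.filter (IsClosedQuadrangle H) with hQ
  have hQc : Set.ncard {q : Quad n | IsClosedQuadrangle H q} = Q.card := by
    rw [← Set.ncard_coe_finset]; congr 1; ext q; simp [hQ]
  rw [hQc] at hq
  set T : ℕ := ⌊(n : ℝ) ^ (1 + ε)⌋₊ with hT
  have hTr : (T : ℝ) ≤ (n : ℝ) ^ (1 + ε) := Nat.floor_le (by positivity)
  have hTt : 2 * t * n ≤ T := by
    apply Nat.le_floor
    push_cast
    have : (n : ℝ) ^ (1 + ε) = n * n ^ ε := by rw [Real.rpow_add hn0, Real.rpow_one]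
    rw [this]
    nlinarith
  obtain ⟨p, hp, hpT⟩ := exists_lt_card_fiber_of_mul_lt_card_of_maps_to
    (s := Q) (t := H ×ˢ (univ : Finset (Fin n)))
    (f := fun q => ((q.2.1 0, q.2.2.2.1 1, q.2.2.2.2 0 1), q.2.1 1)) (n := T)
    (fun q hq => by
      rw [mem_product]
      exact ⟨((mem_filter.1 hq).2.2.2.2 0 1).2, mem_univ _⟩)
    (by
      rw [card_product, card_univ, Fintype.card_fin]
      have h1 : ((H.card * n * T : ℕ) : ℝ) < Q.card := by
        refine lt_of_le_of_lt ?_ hq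
        push_cast
        have : (n : ℝ) ^ (2 + ε) = n * n ^ (1 + ε) := by
          rw [show (2 : ℝ) + ε = 1 + (1 + ε) by ring, Real.rpow_add hn0, Real.rpow_one]
        rw [this, mul_assoc]
        exact mul_le_mul_of_nonneg_left (mul_le_mul_of_nonneg_left hTr hn0.le) (by positivity)
      exact_mod_cast h1)
  obtain ⟨q0, hq0⟩ := card_pos.1 (lt_of_le_of_lt (Nat.zero_le _) hpT)
  obtain ⟨hq0Q, hq0p⟩ := mem_filter.1 hq0
  have hc0 := (mem_filter.1 hq0Q).2
  have hLat : Pool.Agent.V11100.CQ.Lat H := hL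
  have key : ∀ q ∈ Q.filter (fun q => ((q.2.1 0, q.2.2.2.1 1, q.2.2.2.2 0 1), q.2.1 1) = p),
      IsClosedQuadrangle H q ∧ q.2.1 0 = q0.2.1 0 ∧ q.2.1 1 = q0.2.1 1 ∧
        q.2.2.2.2 0 1 = q0.2.2.2.2 0 1 ∧ q.2.2.2.2 1 1 = q0.2.2.2.2 1 1 := by
    intro q hq
    obtain ⟨hqQ, hqp⟩ := mem_filter.1 hq
    have hc := (mem_filter.1 hqQ).2
    rw [← hq0p] at hqp
    simp only [Prod.mk.injEq] at hqp
    obtain ⟨⟨e1, e2, e3⟩, e4⟩ := hqp
    refine ⟨hc, e1, e4, e3, ?_⟩
    have h1 := (hc.2.2.2 1 1).2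
    have h2 := (hc0.2.2.2 1 1).2
    rw [e4, e2] at h1
    exact Pool.Agent.V11100.CQ.lin1 hLat (s := false) h1 h2
  let A0 : Fin n × Fin n := (q0.2.1 0, q0.2.1 1)
  let B0 : Fin n × Fin n := (q0.2.2.2.2 0 1, q0.2.2.2.2 1 1)
  have hbase : Pool.Agent.V11100.CQ.Dom H false A0 B0 :=
    ⟨q0.2.2.2.1 1, (hc0.2.2.2 0 1).2, (hc0.2.2.2 1 1).2⟩
  have hnd : A0.1 ≠ A0.2 := by
    intro h
    have h' : q0.2.1 0 = q0.2.1 1 := h
    have h1 := (hc0.2.2.2 0 0).2
    have h2 := (hc0.2.2.2 1 0).2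
    rw [← h'] at h2
    have h3 := Pool.Agent.V11100.CQ.lin1 hLat (s := false) h1 h2
    have h4 := (hc0.2.2.2 0 0).1
    have h5 := (hc0.2.2.2 1 0).1
    rw [← h3] at h5
    exact hc0.1 (Pool.Agent.V11100.CQ.lin3 hLat (s := false) h4 h5)
  let g : Quad n → (Fin n × Fin n) × (Fin n × Fin n) := fun q =>
    ((q.1 0, q.1 1), (q.2.2.2.2 0 0, q.2.2.2.2 1 0))
  set B := (Q.filter (fun q => ((q.2.1 0, q.2.2.2.1 1, q.2.2.2.2 0 1), q.2.1 1) = p)).image g
    with hBdef
  have hBcard : T < B.card := by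
    rw [hBdef, card_image_of_injOn]
    · exact hpT
    · intro q hq q' hq' hgg
      obtain ⟨c, e1, e2, e3, e4⟩ := key q hq
      obtain ⟨c', e1', e2', e3', e4'⟩ := key q' hq'
      simp only [g, Prod.mk.injEq] at hgg
      obtain ⟨⟨g1, g2⟩, g3, g4⟩ := hgg
      have hx : q.1 = q'.1 := by
        funext i; fin_cases i
        · exact g1
        · exact g2
      have hx' : q.2.1 = q'.2.1 := by
        funext i; fin_cases i
        · exact e1.trans e1'.symm
        · exact e2.trans e2'.symm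
      have hz : q.2.2.2.2 = q'.2.2.2.2 := by
        funext i j; fin_cases i <;> fin_cases j
        · exact g3
        · exact e3.trans e3'.symm
        · exact g4
        · exact e4.trans e4'.symm
      have hy : q.2.2.1 = q'.2.2.1 := by
        funext j
        have h1 := (c.2.2.2 0 j).1
        have h2 := (c'.2.2.2 0 j).1
        rw [← hx, ← hz] at h2
        exact Pool.Agent.V11100.CQ.lin2 hLat (s := false) h1 h2
      have hy' : q.2.2.2.1 = q'.2.2.2.1 := by
        funext j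
        have h1 := (c.2.2.2 0 j).2
        have h2 := (c'.2.2.2 0 j).2
        rw [← hx', ← hz] at h2
        exact Pool.Agent.V11100.CQ.lin2 hLat (s := false) h1 h2
      exact Prod.ext hx (Prod.ext hx' (Prod.ext hy (Prod.ext hy' hz)))
  have hBprop : ∀ a b, (a, b) ∈ B → Pool.Agent.V11100.CQ.Dom H false a b ∧
      Pool.Agent.V11100.CQ.Dom H false a B0 ∧ Pool.Agent.V11100.CQ.Dom H false A0 b ∧
      a ≠ A0 ∧ b ≠ B0 := by
    intro a b hab
    obtain ⟨q, hq, hgq⟩ := mem_image.1 hab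
    obtain ⟨c, e1, e2, e3, e4⟩ := key q hq
    simp only [g, Prod.mk.injEq] at hgq
    obtain ⟨ha, hb⟩ := hgq
    subst ha hb
    refine ⟨⟨q.2.2.1 0, (c.2.2.2 0 0).1, (c.2.2.2 1 0).1⟩, ⟨q.2.2.1 1, ?_, ?_⟩,
      ⟨q.2.2.2.1 0, ?_, ?_⟩, ?_, ?_⟩
    · show (q.1 0, q.2.2.1 1, q0.2.2.2.2 0 1) ∈ H
      rw [← e3]; exact (c.2.2.2 0 1).1
    · show (q.1 1, q.2.2.1 1, q0.2.2.2.2 1 1) ∈ H
      rw [← e4]; exact (c.2.2.2 1 1).1
    · show (q0.2.1 0, q.2.2.2.1 0, q.2.2.2.2 0 0) ∈ H
      rw [← e1]; exact (c.2.2.2 0 0).2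
    · show (q0.2.1 1, q.2.2.2.1 0, q.2.2.2.2 1 0) ∈ H
      rw [← e2]; exact (c.2.2.2 1 0).2
    · intro h
      simp only [A0, Prod.mk.injEq] at h
      apply c.2.2.1
      funext i; fin_cases i
      · exact h.1.trans e1.symm
      · exact h.2.trans e2.symm
    · intro h
      simp only [B0, Prod.mk.injEq] at h
      apply c.2.1
      have h1 := (c.2.2.2 0 0).1
      have h2 := (c.2.2.2 0 1).1
      rw [e3, ← h.1] at h2
      exact Pool.Agent.V11100.CQ.lin2 hLat (s := false) h1 h2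
  have hmk : 24 + 24 * r * m ≤ k := by
    have h1 : 24 * r * m ≤ k - 24 := by
      rw [hm]; exact Nat.mul_div_le _ _
    omega
  obtain ⟨X, Y, Z, h1, h2⟩ := Pool.Agent.V11100.CQ.from_domino hLat hbase hnd B hBprop t
    (by omega) k m r M (by omega) hcount (by rw [← hD]; exact htD)
    (by
      have : 8 * r * (m + 1) = 8 * r * m + 8 * r := by ring
      omega)
    (by
      have : 8 * r * (m + 1) = 8 * r * m + 8 * r := by ring
      omega) hmk
  refine ⟨X, Y, Z, h1, ?_⟩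
  have h3 : 19 + k / (528 * r) ≤ m := by
    have hj : k / (528 * r) = (k / (24 * r)) / 22 := by
      rw [Nat.div_div_eq_div_mul]; congr 1; ring
    rw [hj]
    have hj22 : 22 ≤ k / (24 * r) := by
      rw [Nat.le_div_iff_mul_le (by omega)]
      calc 22 * (24 * r) = 528 * r := by ring
        _ ≤ k := hk
    have hmj : k / (24 * r) ≤ m + 1 := by
      have h4 : k / (24 * r) ≤ ((k - 24) + 24 * r) / (24 * r) :=
        Nat.div_le_div_right (by omega)
      rwa [Nat.add_div_right _ (by omega)] at h4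
    omega
  have h4 : k + k / (528 * r) + 19 ≤ k + m := by omega
  exact Nat.le_of_add_le_add_right (h4.trans h2)

end Pool.Agent.Results.MP_c82047_co.ClosedQuadrangles
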