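import Pool.Agent.V11278.Rect.GummU

/-!
# The Brown–Erdős–Sós conjecture for subalgebras in congruence modular varieties

`X`, `Y`, `Z` are finite sets with directed Gumm operations `d 0, …, d (L - 1), q`
(`DirectedGumm`), `H ⊆ X × Y × Z` is a tripartite triple system closed under the componentwise
operations, and any `s` triples of `H` span more than `s + 3` vertices (`Sparse s H`). Then
`|H| ≤ (s-1)² |X| + (s-1)^(L+1) √(|X| |Y| |Z|)`.

By a theorem of Kazda, Kozik, McKenzie and Moore the algebras of a variety have such term
operations for some `L` if and only if the variety is congruence modular; `L = 0` is the case of a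
Maltsev operation (groups, rings, modules, quasigroups), and operations with `q a b c = c` are
directed Jónsson operations (lattices, median algebras, near-unanimity operations).

Proof. Let `S` be the set of the common neighbours in `X` of `y ∈ Y` and `z ∈ Z`. For `x, x' ∈ S`
the vertex `w = q x x' x'` lies in `S` as well, `w` dominates `x'` (its neighbourhoods in `Y` and in
`Z` contain those of `x'`), and `w` has distance at most `L` from `x` in the graph whose edges are
the pairs `u, u'` with `(u, y, v), (u', y, v) ∈ H` for some `v`, which has degrees at most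
`(s-1)²`. Let `x'` be maximal. Then `w` and `x'` have the same neighbourhoods. Two vertices with the
same neighbourhoods have together less than `s` triples; so `w = x'` if `S` contains a vertex with
at least `s` neighbours in `Y` and in `Z`, and then `|S| ≤ (s-1)^(2L)`. The bound follows by
counting the pairs of neighbours in `Y` and `Z` of the vertices in `X`.
-/

set_option autoImplicit false

universe u

namespace Pool.Agent.Results.MP_c82047_co.CongruenceModular

open Finset Pool.Agent.V11278.Rect

theorem result :
    -- the bound
    (∀ (X Y Z : Type u) [Fintype X] [Fintype Y] [Fintype Z] [DecidableEq X] [DecidableEq Y]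
      [DecidableEq Z] (L s : ℕ)
      (dX : ℕ → X → X → X → X) (dY : ℕ → Y → Y → Y → Y) (dZ : ℕ → Z → Z → Z → Z)
      (qX : X → X → X → X) (qY : Y → Y → Y → Y) (qZ : Z → Z → Z → Z) (H : Finset (X × Y × Z)),
      DirectedGumm L dX qX → DirectedGumm L dY qY → DirectedGumm L dZ qZ →
      (∀ l < L, ClosedUnder (dX l) (dY l) (dZ l) H) → ClosedUnder qX qY qZ H →
      1 ≤ s → Sparse s H →
      (H.card : ℝ) ≤ ((s : ℝ) - 1) ^ 2 * Fintype.card X + ((s : ℝ) - 1) ^ (L + 1) *
        Real.sqrt (Fintype.card X * Fintype.card Y * Fintype.card Z)) ∧
    -- it has the right order for `3 ≤ s ≤ 16`, in the square of every algebra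
    (∀ (A : Type u) [Fintype A] [DecidableEq A] (L : ℕ) (d : ℕ → A → A → A → A)
      (q : A → A → A → A), DirectedGumm L d q →
      ∃ H : Finset ((A × A) × (A × A) × (A × A)), H.card = Fintype.card A ^ 3 ∧
        DirectedGumm L (fun l => prodOp (d l) (d l)) (prodOp q q) ∧
        (∀ l, ClosedUnder (prodOp (d l) (d l)) (prodOp (d l) (d l)) (prodOp (d l) (d l)) H) ∧
        ClosedUnder (prodOp q q) (prodOp q q) (prodOp q q) H ∧
        ∀ s : ℕ, 3 ≤ s → s ≤ 16 → Sparse s H) := by
  refine ⟨?_, ?_⟩
  · intro X Y Z _ _ _ _ _ _ L s dX dY dZ qX qY qZ H hX hY hZ hd hq hs hsp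
    exact gumm hs hsp hX hY hZ hd hq
  · intro A _ _ L d q h
    refine ⟨grid A A A, by rw [card_grid]; ring, prod_gumm h h, fun l => grid_closed _ _ _,
      grid_closed _ _ _, fun s h3 h16 => grid_sparse h3 h16⟩

end Pool.Agent.Results.MP_c82047_co.CongruenceModular
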