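import Pool.Agent.V11278.Rect.Linear
import Pool.Agent.V11278.Rect.More

/-!
# The Brown–Erdős–Sós conjecture for triple systems with rectangular shadows

`H ⊆ X × Y × Z` is a tripartite triple system with parts of at most `n` vertices. Its three shadows
are the bipartite graphs `sh12 H`, `sh13 H`, `sh23 H` of the pairs contained in its triples. A
bipartite graph is rectangular if it is a disjoint union of complete bipartite graphs.
`Sparse s H`: any `s` triples of `H` span more than `s + 3` vertices.

* If two shadows are rectangular, a sparse `H` has at most `(s-1)(n + 2 n √n)` triples.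
* If all three are rectangular and `s ≥ 30`, it has at most `3 (s-1)² n` triples.
* Both hold for unions of `m` such systems, with an additional factor `m`.
* The shadows are rectangular if `H` is closed under componentwise Maltsev operations, e.g. if `H`
  is a coset of a subgroup of a product of three groups.
* For `3 ≤ s ≤ 16` and every finite abelian group `G` there is a sparse coset with parts `G × G`
  and `|G|³` triples.

Proof. Let `x ≠ x'` have the same neighbours in `Y` and in `Z`. In the graph formed by the pairs
`(y, z)` completing `x` or `x'` to a triple every vertex has degree at least two, so it has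
connected-enough subgraphs with `s` edges and `s + 1` vertices: `x` and `x'` have together less than
`s` triples. Hence a vertex of degree at least `s` is determined by its two neighbourhoods, which
come from two families of disjoint sets. If all three shadows are rectangular and all vertices of a
triple have large degree, the system contains a `3 × 3 × m` grid, `9 m` triples on `9 + 6 m`
vertices.
-/

set_option autoImplicit false

universe u

namespace Pool.Agent.Results.MP_c82047_co.RectangularShadows

open Finset Pool.Agent.V11278.Rect

/-- All three shadows are rectangular. -/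
def AllRect {X Y Z : Type*} [DecidableEq X] [DecidableEq Y] [DecidableEq Z]
    (H : Finset (X × Y × Z)) : Prop :=
  Rectangular (sh12 H) ∧ Rectangular (sh13 H) ∧ Rectangular (sh23 H)

theorem result :
    -- (1) two rectangular shadows
    (∀ (X Y Z : Type u) [Fintype X] [Fintype Y] [Fintype Z] [DecidableEq X] [DecidableEq Y]
      [DecidableEq Z] (n s m : ℕ) (P : Fin m → Finset (X × Y × Z)), 1 ≤ s →
      Fintype.card X ≤ n → Fintype.card Y ≤ n → Fintype.card Z ≤ n →
      Sparse s (univ.biUnion P) → (∀ i, TwoRect (P i)) →
      (univ.biUnion P).card ≤ m * ((s - 1) * (n + 2 * n * Nat.sqrt n))) ∧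
    -- (2) three rectangular shadows
    (∀ (X Y Z : Type u) [Fintype X] [Fintype Y] [Fintype Z] [DecidableEq X] [DecidableEq Y]
      [DecidableEq Z] (n s m : ℕ) (P : Fin m → Finset (X × Y × Z)), 30 ≤ s →
      Fintype.card X ≤ n → Fintype.card Y ≤ n → Fintype.card Z ≤ n →
      Sparse s (univ.biUnion P) → (∀ i, AllRect (P i)) →
      (univ.biUnion P).card ≤ m * (3 * (s - 1) ^ 2 * n)) ∧
    -- (3) componentwise Maltsev operations give rectangular shadows
    (∀ (X Y Z : Type u) [DecidableEq X] [DecidableEq Y] [DecidableEq Z]
      (mX : X → X → X → X) (mY : Y → Y → Y → Y) (mZ : Z → Z → Z → Z) (H : Finset (X × Y × Z)),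
      ClosedUnder mX mY mZ H → (∀ a b, mX a b b = a) → (∀ a b, mY a a b = b) →
      (∀ a b, mZ a a b = b) →
      (Rectangular (sh12 H) ∧ Rectangular (sh13 H)) ∧
        ((∀ a b, mY a b b = a) → Rectangular (sh23 H))) ∧
    -- (4) sharpness of the exponent in (1)
    (∀ (G : Type u) [AddCommGroup G] [Fintype G] [DecidableEq G],
      ∃ H : Finset ((G × G) × (G × G) × (G × G)), H.card = Fintype.card G ^ 3 ∧
        Fintype.card (G × G) = Fintype.card G ^ 2 ∧ AllRect H ∧
        ClosedUnder (fun a b c => a - b + c) (fun a b c => a - b + c) (fun a b c => a - b + c) H ∧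
        ∀ s : ℕ, 3 ≤ s → s ≤ 16 → Sparse s H) := by
  refine ⟨?_, ?_, ?_, ?_⟩
  · intro X Y Z _ _ _ _ _ _ n s m P hs hX hY hZ hsp hP
    calc (univ.biUnion P).card ≤ ∑ i : Fin m, (P i).card := card_biUnion_le
      _ ≤ ∑ _i : Fin m, (s - 1) * (n + 2 * n * Nat.sqrt n) := by
          apply sum_le_sum
          intro i _
          exact upper_two hs (sparse_mono hsp (subset_biUnion_of_mem P (mem_univ i))) (hP i)
            hX hY hZ
      _ = _ := by rw [sum_const, card_univ, Fintype.card_fin, smul_eq_mul]
  · intro X Y Z _ _ _ _ _ _ n s m P hs hX hY hZ hsp hP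
    calc (univ.biUnion P).card ≤ ∑ i : Fin m, (P i).card := card_biUnion_le
      _ ≤ ∑ _i : Fin m, 3 * (s - 1) ^ 2 * n := by
          apply sum_le_sum
          intro i _
          exact linear hs (sparse_mono hsp (subset_biUnion_of_mem P (mem_univ i))) (hP i).1
            (hP i).2.1 (hP i).2.2 hX hY hZ
      _ = _ := by rw [sum_const, card_univ, Fintype.card_fin, smul_eq_mul]
  · intro X Y Z _ _ _ mX mY mZ H hH hX hY hZ
    refine ⟨closed_rect hH hX hY hZ, ?_⟩
    intro hY2
    rintro a a' b b' ⟨z1, h1⟩ ⟨z2, h2⟩ ⟨z3, h3⟩
    have := hH _ h1 _ h2 _ h3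
    simp only [hY2, hZ] at this
    exact ⟨_, this⟩
  · intro G _ _ _
    refine ⟨grid G G G, ?_, ?_, grid_rect, ?_, fun s h3 h16 => grid_sparse h3 h16⟩
    · rw [card_grid]; ring
    · rw [Fintype.card_prod, sq]
    · exact grid_closed (fun a b c => a - b + c) (fun a b c => a - b + c) (fun a b c => a - b + c)

end Pool.Agent.Results.MP_c82047_co.RectangularShadows
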