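import Pool.Agent.V11163.ZG.Univ

/-!
# Triple systems recognized by tree tensor networks, with cancellations

The vertices are the `n = 2 ^ m` strings of `m` bits, in any labelling. A tree tensor network
`Net K V Al W` (`Pool/Agent/TH700/PA/Defs.lean`) has leaves that read one bit each (with a vector in
`K ^ W` for each value); an inner node combines the vectors of its two children by an arbitrary bilinear
map; the value is a linear form of the vector of the root. The field `K`, the weights and the tree are
arbitrary, so there may be cancellations; the bond dimension is `card W`. The network recognizes the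
triple system `E` (`HyperNet K W 3 E`) if it reads every bit of three strings at most once and its value
is not zero if and only if the three strings are different and form an edge.

(1) Let `k ≥ 1334` and `s ≥ 1`. If no `k` edges have at most `k + 3` vertices, then `E` has at most
`C w ^ e n ^ (1 + 1 / s)` edges, where `w` is the bond dimension and `C`, `e` depend on `k` and `s` only.
(2) So for every `δ > 0` there is `γ > 0` such that systems with bond dimension at most `n ^ γ` and no `k`
edges on `k + 3` vertices have at most `n ^ (1 + δ)` edges, for large `n`; counterexamples to the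
conjecture (for some number `k ≥ 1334` of edges) have bond dimension larger than `n ^ γ`. (3) Every
triple system is recognized with bond dimension `6 |E|`.

**Proof.** Let `T` be a subset of a product of `r` sets. Assume that `T` and its slices have no triangular
pattern of size `w + 1`. If the proportion `1 / h` of the points of `T` is on lines with more than
`K = K (a, r, w, h)` points of `T` in all `r` directions, then `T` contains an `a × ... × a` box
(`box_exists`): by induction on `r`, a greedy cover gives a slice of `T` which contains a large
proportion of many other slices, and then `a` of these slices have a dense common part. `K` is a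
polynomial in `w` and `h`. Apply this to the words obtained from a fixed word by changing the bits of
the strings `x_i`, `i ≠ j`, in the `j`-th of `r = 3` different parts of a partition of the `3 m` bits
into few balanced parts of rank `w ^ 3`. A box would be a grid (`GridIn`), which has many edges
on few vertices. So for most edges there is `j` such that for all parts but two there are few
edges which arise by changing the bits of the strings `x_i`, `i ≠ j`, in this part; by a greedy choice
the restriction of such edges to this part takes few values, for a given `x_j`. So there are few of them.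
-/

set_option autoImplicit false

namespace Pool.Agent.Results.MP_c82047_co.TensorNetworks

open Pool.Agent.V11163.ZG
open Pool.Agent.H607R2.BW (Str)

open Classical in
theorem result :
    -- (1) the bound
    (∀ k s : ℕ, 1334 ≤ k → 1 ≤ s → ∃ C e : ℕ,
      ∀ (m : ℕ) (K W : Type) [Field K] [Fintype W] (E : Finset (Finset (Str m))),
        (∀ t ∈ E, t.card = 3) → HyperNet K W 3 E →
        (∀ T ⊆ E, T.card = k → k + 3 < (T.biUnion id).card) →
        E.card ≤ C * Fintype.card W ^ e * 2 ^ (m + m / s)) ∧
    -- (2) small bond dimension
    (∀ (k : ℕ) (δ : ℝ), 1334 ≤ k → 0 < δ → ∃ γ : ℝ, 0 < γ ∧ ∃ m₀ : ℕ,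
      ∀ (m : ℕ) (K W : Type) [Field K] [Fintype W] (E : Finset (Finset (Str m))), m₀ ≤ m →
        (Fintype.card W : ℝ) ≤ ((2 : ℝ) ^ m) ^ γ →
        (∀ t ∈ E, t.card = 3) → HyperNet K W 3 E →
        (∀ T ⊆ E, T.card = k → k + 3 < (T.biUnion id).card) →
        (E.card : ℝ) ≤ ((2 : ℝ) ^ m) ^ (1 + δ)) ∧
    -- (3) all triple systems are recognized with large bond dimension
    (∀ (K : Type) [Field K] (m : ℕ), 1 ≤ m → ∀ E : Finset (Finset (Str m)),
      (∀ t ∈ E, t.card = 3) →
      HyperNet K (Ord 3 E) 3 E ∧ Fintype.card (Ord 3 E) = 6 * E.card) := by
  refine ⟨fun k s hk hs => bes3_le k s hk hs, ?_, ?_⟩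
  · intro k δ hk hδ
    obtain ⟨s, hs⟩ := exists_nat_gt (2 / δ)
    have hs0 : (0 : ℝ) < s := lt_trans (by positivity) hs
    have hs1 : 1 ≤ s := by
      have : (0 : ℝ) < s := hs0
      exact_mod_cast this
    obtain ⟨C, e, h⟩ := bes3_le k s hk hs1
    obtain ⟨γ, hγ, m₀, h2⟩ := hyper_asy (C := C) (e := e) hs1 (δ := δ) (by
      rw [div_le_iff₀ hs0]
      rw [div_lt_iff₀ hδ] at hs
      linarith) hδ
    exact ⟨γ, hγ, m₀, fun m K W _ _ E hm hw hE hN hf =>
      h2 m (Fintype.card W) E.card hm hw (h m K W E hE hN hf)⟩
  · intro K _ m hm E hE
    exact hyper_universal K (by norm_num) hm E hE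

end Pool.Agent.Results.MP_c82047_co.TensorNetworks
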